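import Pool.Agent.helper38.VA.Spec

/-! Row DFM of helper38's plan VA (MP_a2a22c_al): the quadratic form of a D-type space. -/

set_option autoImplicit false

namespace Pool.Agent.VA

open Matrix Module Pool.Agent.PR Pool.Agent.H48SL

/-- the bilinear form `κ (X Y w)` -/
theorem DFM_exB {n : ℕ} (κ w : Fin n → ℚ) : ∃ B : MQ n →ₗ[ℚ] MQ n →ₗ[ℚ] ℚ,
    ∀ X Y, B X Y = κ ⬝ᵥ ((X * Y) *ᵥ w) := by
  refine ⟨LinearMap.mk₂ ℚ (fun X Y : MQ n => κ ⬝ᵥ ((X * Y) *ᵥ w)) ?_ ?_ ?_ ?_, fun X Y => rfl⟩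
  · intro X X' Y
    rw [add_mul, add_mulVec, dotProduct_add]
  · intro c X Y
    rw [smul_mul_assoc, smul_mulVec, dotProduct_smul]
  · intro X Y Y'
    rw [mul_add, add_mulVec, dotProduct_add]
  · intro c X Y
    rw [mul_smul_comm, smul_mulVec, dotProduct_smul]

theorem DFM_ex {n : ℕ} {φ : Fin n → ℚ} (h : φ ≠ 0) : ∃ w : Fin n → ℚ, φ ⬝ᵥ w = 1 := by
  obtain ⟨i, hi⟩ := Function.ne_iff.1 h
  refine ⟨Pi.single i (φ i)⁻¹, ?_⟩
  rw [dotProduct_single]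
  exact mul_inv_cancel₀ hi

theorem DFM_prod {n : ℕ} {W : Submodule ℚ (MQ n)} {k φ κ w : Fin n → ℚ} (hD : DT W k φ)
    (hκ : κ ⬝ᵥ k = 1) (hw : φ ⬝ᵥ w = 1) {X Y : MQ n} (hX : X ∈ W) (hY : Y ∈ W) :
    X * Y = (κ ⬝ᵥ ((X * Y) *ᵥ w)) • vecMulVec k φ := by
  have h1 : φ ⬝ᵥ (Y *ᵥ w) = 0 := by
    rw [dotProduct_mulVec, hD.fX Y hY, zero_dotProduct]
  obtain ⟨c, hc⟩ := hD.Xu X hX _ h1
  have h2 : (X * Y) *ᵥ w = c • k := by
    rw [← mulVec_mulVec]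
    exact hc
  have h3 : κ ⬝ᵥ ((X * Y) *ᵥ w) = c := by
    rw [h2, dotProduct_smul, hκ, smul_eq_mul, mul_one]
  rw [h3]
  refine Matrix.ext_of_mulVec_single fun i => ?_
  have h4 : ∀ v : Fin n → ℚ, (X * Y) *ᵥ v = (φ ⬝ᵥ v) • (c • k) := by
    intro v
    have h5 : φ ⬝ᵥ (v - (φ ⬝ᵥ v) • w) = 0 := by
      rw [dotProduct_sub, dotProduct_smul, hw, smul_eq_mul, mul_one, sub_self]
    obtain ⟨d, hd⟩ := hD.Xu Y hY _ h5
    have h6 : (X * Y) *ᵥ (v - (φ ⬝ᵥ v) • w) = 0 := by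
      rw [← mulVec_mulVec, hd, mulVec_smul, hD.Xk X hX, smul_zero]
    rw [mulVec_sub, mulVec_smul, h2, sub_eq_zero] at h6
    exact h6
  rw [h4, smul_mulVec, vecMulVec_mulVec]
  ext j
  simp only [Pi.smul_apply, smul_eq_mul, MulOpposite.smul_eq_mul_unop, MulOpposite.unop_op]
  ring

theorem DFM : DFM_stmt := by
  intro n W k φ hcomm hD
  obtain ⟨w, hw⟩ := DFM_ex hD.f0
  obtain ⟨κ, hκ'⟩ := DFM_ex hD.k0
  have hκ : κ ⬝ᵥ k = 1 := by
    rw [dotProduct_comm]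
    exact hκ'
  obtain ⟨B, hB⟩ := DFM_exB κ w
  have hsym : ∀ X ∈ W, ∀ Y ∈ W, B X Y = B Y X := by
    intro X hX Y hY
    rw [hB, hB, hcomm X hX Y hY]
  have han : ∀ X ∈ W, B X X = 0 → X = 0 := by
    intro X hX h0
    by_contra hne
    apply hD.an X hX hne
    rw [DFM_prod hD hκ hw hX hX, ← hB, h0, zero_smul]
  refine ⟨B, fun X hX Y hY => ⟨?_, hsym X hX Y hY⟩, han, ?_⟩
  · rw [hB]
    exact DFM_prod hD hκ hw hX hY
  · intro l
    have hfd : FiniteDimensional ℚ W := inferInstance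
    let Φ : W →ₗ[ℚ] Module.Dual ℚ W :=
      { toFun := fun X₀ => (B (X₀ : MQ n)).comp W.subtype
        map_add' := by
          intro a b
          ext x
          simp
        map_smul' := by
          intro a b
          ext x
          simp }
    have hinj : Function.Injective Φ := by
      rw [← LinearMap.ker_eq_bot, LinearMap.ker_eq_bot']
      intro X₀ h0
      have h1 : Φ X₀ X₀ = 0 := by
        rw [h0]
        rfl
      have h2 : B (X₀ : MQ n) X₀ = 0 := h1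
      exact Subtype.ext (han _ X₀.2 h2)
    have hsurj : Function.Surjective Φ :=
      (LinearMap.injective_iff_surjective_of_finrank_eq_finrank
        (Subspace.dual_finrank_eq (K := ℚ) (V := W)).symm).1 hinj
    obtain ⟨X₀, hX₀⟩ := hsurj (l.comp W.subtype)
    refine ⟨X₀, X₀.2, fun X hX => ?_⟩
    have h3 : Φ X₀ ⟨X, hX⟩ = l X := by
      rw [hX₀]
      rfl
    rw [hsym X hX X₀ X₀.2]
    exact h3

end Pool.Agent.VA
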